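import Pool.Agent.H10.FEW.Stmts

set_option autoImplicit false

namespace Pool.FEW

open Finset

private theorem en_prod {κ G : Type} [CommGroup G] (s : Finset κ) (ψ : AddChar (Additive G) ℂ)
    (g : κ → G) : ψ (Additive.ofMul (∏ i ∈ s, g i)) = ∏ i ∈ s, ψ (Additive.ofMul (g i)) := by
  classical
  induction s using Finset.induction_on with
  | empty => simp
  | insert a s ha ih =>
    rw [Finset.prod_insert ha, Finset.prod_insert ha, ofMul_mul, AddChar.map_add_eq_mul, ih]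

/-- orthogonality: pairs with the same value -/
private theorem en_count {β G : Type} [CommGroup G] [Fintype G] [DecidableEq G]
    (Ω : Finset β) (F : β → G) :
    (Fintype.card G : ℝ) * ((((Ω ×ˢ Ω).filter (fun w => F w.1 = F w.2)).card : ℕ) : ℝ) =
      ∑ ψ : AddChar (Additive G) ℂ, ‖∑ a ∈ Ω, ψ (Additive.ofMul (F a))‖ ^ 2 := by
  have key : ∀ a b : β, ∑ ψ : AddChar (Additive G) ℂ,
      ψ (Additive.ofMul (F a)) * (starRingEnd ℂ) (ψ (Additive.ofMul (F b))) =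
      if F a = F b then (Fintype.card G : ℂ) else 0 := by
    intro a b
    have h1 : ∀ ψ : AddChar (Additive G) ℂ,
        ψ (Additive.ofMul (F a)) * (starRingEnd ℂ) (ψ (Additive.ofMul (F b))) =
        ψ (Additive.ofMul (F a) - Additive.ofMul (F b)) := by
      intro ψ
      rw [AddChar.map_sub_eq_div, div_eq_mul_inv]
      congr 1
      have := AddChar.norm_apply ψ (Additive.ofMul (F b))
      rw [Complex.inv_def, Complex.normSq_eq_norm_sq, this]
      simp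
    simp_rw [h1]
    rw [AddChar.sum_apply_eq_ite]
    simp only [sub_eq_zero, Fintype.card_additive]
    rfl
  have h2 : ∀ ψ : AddChar (Additive G) ℂ, ((‖∑ a ∈ Ω, ψ (Additive.ofMul (F a))‖ ^ 2 : ℝ) : ℂ) =
      ∑ w ∈ Ω ×ˢ Ω, ψ (Additive.ofMul (F w.1)) * (starRingEnd ℂ) (ψ (Additive.ofMul (F w.2))) := by
    intro ψ
    rw [Complex.ofReal_pow, ← Complex.mul_conj', map_sum, Finset.sum_mul_sum,
      Finset.sum_product]
  have h3 : (((Fintype.card G : ℝ) * ((((Ω ×ˢ Ω).filter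
      (fun w => F w.1 = F w.2)).card : ℕ) : ℝ) : ℝ) : ℂ) =
      ((∑ ψ : AddChar (Additive G) ℂ, ‖∑ a ∈ Ω, ψ (Additive.ofMul (F a))‖ ^ 2 : ℝ) : ℂ) := by
    rw [Complex.ofReal_sum]
    simp_rw [h2]
    rw [Finset.sum_comm]
    simp_rw [key]
    rw [← Finset.sum_filter, Finset.sum_const, nsmul_eq_mul]
    push_cast
    ring
  exact_mod_cast h3

/-- a non-integral power by the two neighbouring integral ones -/
private theorem en_pow (x P T : ℝ) (hx : 0 ≤ x) (hP : 0 < P) (hT : 1 ≤ T) :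
    x ^ T ≤ P ^ T * (x ^ ⌊T⌋₊ / P ^ ⌊T⌋₊ + x ^ ⌈T⌉₊ / P ^ ⌈T⌉₊) := by
  have h0 : x = P * (x / P) := by field_simp
  have hu : 0 ≤ x / P := div_nonneg hx hP.le
  have h1 : x ^ T = P ^ T * (x / P) ^ T := by
    rw [← Real.mul_rpow hP.le hu, ← h0]
  rw [h1]
  refine mul_le_mul_of_nonneg_left ?_ (Real.rpow_nonneg hP.le _)
  rw [← div_pow, ← div_pow]
  have hT0 : 0 ≤ T := by linarith
  rcases le_total (x / P) 1 with h | h
  · have h2 : (x / P) ^ T ≤ (x / P) ^ ⌊T⌋₊ := by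
      rcases hu.eq_or_lt with h3 | h3
      · rw [← h3, Real.zero_rpow (by linarith)]
        positivity
      · rw [← Real.rpow_natCast]
        exact Real.rpow_le_rpow_of_exponent_ge h3 h (Nat.floor_le hT0)
    have h3 : 0 ≤ (x / P) ^ ⌈T⌉₊ := by positivity
    linarith
  · have h2 : (x / P) ^ T ≤ (x / P) ^ ⌈T⌉₊ := by
      rw [← Real.rpow_natCast]
      exact Real.rpow_le_rpow_of_exponent_le h (Nat.le_ceil T)
    have h3 : 0 ≤ (x / P) ^ ⌊T⌋₊ := by positivity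
    linarith

theorem en_thm : S_EN := by
  intro ι G _ _ _ _ _ U f J P B hB hU hP hM
  have hG : (0 : ℝ) < Fintype.card G := by exact_mod_cast Fintype.card_pos
  -- the sums
  let S : ι → AddChar (Additive G) ℂ → ℂ := fun j ψ => ∑ u ∈ U j, ψ (Additive.ofMul (f j u))
  have hE := en_count (Fintype.piFinset U) (fun p => ∏ j, f j (p j))
  have hS : ∀ ψ : AddChar (Additive G) ℂ,
      ∑ a ∈ Fintype.piFinset U, ψ (Additive.ofMul (∏ j, f j (a j))) = ∏ j, S j ψ := by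
    intro ψ
    rw [Finset.prod_univ_sum]
    refine Finset.sum_congr rfl fun a _ => ?_
    rw [en_prod]
  simp_rw [hS] at hE
  -- moments
  have hmom : ∀ j ∈ J, ∀ t : ℕ, 1 ≤ t → P j ^ (t - 1) < ∏ i ∈ J, P i →
      ∑ ψ : AddChar (Additive G) ℂ, (‖S j ψ‖ ^ 2) ^ t ≤ Fintype.card G * (B * P j ^ t) := by
    intro j hj t ht hlt
    have h1 := en_count (Fintype.piFinset fun _ : Fin t => U j) (fun p => ∏ i, f j (p i))
    have h2 : ∀ ψ : AddChar (Additive G) ℂ,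
        ∑ a ∈ Fintype.piFinset fun _ : Fin t => U j, ψ (Additive.ofMul (∏ i, f j (a i))) =
          S j ψ ^ t := by
      intro ψ
      have h3 : S j ψ ^ t = ∏ _i : Fin t, ∑ u ∈ U j, ψ (Additive.ofMul (f j u)) := by
        rw [Finset.prod_const, Finset.card_univ, Fintype.card_fin]
      rw [h3, Finset.prod_univ_sum]
      refine Finset.sum_congr rfl fun a _ => ?_
      rw [en_prod]
    simp_rw [h2] at h1
    have h4 : ∑ ψ : AddChar (Additive G) ℂ, (‖S j ψ‖ ^ 2) ^ t =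
        ∑ ψ : AddChar (Additive G) ℂ, ‖S j ψ ^ t‖ ^ 2 := by
      refine Finset.sum_congr rfl fun ψ _ => ?_
      rw [norm_pow, ← pow_mul, ← pow_mul, mul_comm]
    rw [h4, ← h1]
    exact mul_le_mul_of_nonneg_left (hM j hj t ht hlt) hG.le
  -- the empty case
  rcases J.eq_empty_or_nonempty with hJ | hJ
  · subst hJ
    have h1 : (Fintype.piFinset U).card ≤ 1 := by
      rw [Fintype.card_piFinset]
      exact Finset.prod_le_one' fun j _ => hU j (Finset.notMem_empty j)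
    have h2 : ((((Fintype.piFinset U ×ˢ Fintype.piFinset U).filter
        (fun w => ∏ j, f j (w.1 j) = ∏ j, f j (w.2 j))).card : ℕ) : ℝ) ≤ 1 := by
      have h3 : ((Fintype.piFinset U ×ˢ Fintype.piFinset U).filter
        (fun w => ∏ j, f j (w.1 j) = ∏ j, f j (w.2 j))).card ≤ 1 := by
        refine (card_filter_le _ _).trans ?_
        rw [card_product]
        calc _ ≤ 1 * 1 := Nat.mul_le_mul h1 h1
          _ = 1 := rfl
      exact_mod_cast h3
    rw [Finset.prod_empty]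
    linarith
  -- the main case
  set Q := ∏ i ∈ J, P i with hQ
  have hPpos : ∀ j ∈ J, 0 < P j := fun j hj => by linarith [hP j hj]
  have hPQ : ∀ j ∈ J, P j ≤ Q := by
    intro j hj
    rw [hQ, ← Finset.mul_prod_erase J P hj]
    have h1 : 1 ≤ ∏ i ∈ J.erase j, P i := by
      calc (1 : ℝ) = ∏ i ∈ J.erase j, (1 : ℝ) := by rw [Finset.prod_const_one]
        _ ≤ _ := Finset.prod_le_prod (fun _ _ => zero_le_one)
            fun i hi => (hP i (Finset.mem_of_mem_erase hi)).le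
    exact le_mul_of_one_le_right (hPpos j hj).le h1
  have hQ1 : 1 < Q := by
    obtain ⟨j, hj⟩ := hJ
    exact (hP j hj).trans_le (hPQ j hj)
  have hQ0 : 0 < Q := by linarith
  have hlQ : 0 < Real.log Q := Real.log_pos hQ1
  have hlP : ∀ j ∈ J, 0 < Real.log (P j) := fun j hj => Real.log_pos (hP j hj)
  have hlPQ : ∀ j ∈ J, Real.log (P j) ≤ Real.log Q := fun j hj =>
    Real.log_le_log (hPpos j hj) (hPQ j hj)
  let al : ι → ℝ := fun j => Real.log (P j) / Real.log Q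
  let T : ι → ℝ := fun j => Real.log Q / Real.log (P j)
  have hal : ∀ j ∈ J, 0 ≤ al j := fun j hj => div_nonneg (hlP j hj).le hlQ.le
  have hals : ∑ j ∈ J, al j = 1 := by
    show ∑ j ∈ J, Real.log (P j) / Real.log Q = 1
    rw [← Finset.sum_div, ← Real.log_prod (fun j hj => (hPpos j hj).ne'), ← hQ,
      div_self hlQ.ne']
  have hT1 : ∀ j ∈ J, 1 ≤ T j := fun j hj => by
    show 1 ≤ Real.log Q / Real.log (P j)
    rw [le_div_iff₀ (hlP j hj), one_mul]
    exact hlPQ j hj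
  have hPT : ∀ j ∈ J, P j ^ T j = Q := by
    intro j hj
    rw [Real.rpow_def_of_pos (hPpos j hj)]
    show Real.exp (Real.log (P j) * (Real.log Q / Real.log (P j))) = Q
    rw [mul_div_cancel₀ _ (hlP j hj).ne', Real.exp_log hQ0]
  have hTal : ∀ j ∈ J, T j * al j = 1 := by
    intro j hj
    show Real.log Q / Real.log (P j) * (Real.log (P j) / Real.log Q) = 1
    have := (hlP j hj).ne'
    field_simp
  -- pointwise
  have hpt : ∀ ψ : AddChar (Additive G) ℂ, ‖∏ j, S j ψ‖ ^ 2 ≤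
      ∑ j ∈ J, al j * (Q * ((‖S j ψ‖ ^ 2) ^ ⌊T j⌋₊ / P j ^ ⌊T j⌋₊ +
        (‖S j ψ‖ ^ 2) ^ ⌈T j⌉₊ / P j ^ ⌈T j⌉₊)) := by
    intro ψ
    have h1 : ‖∏ j, S j ψ‖ ^ 2 ≤ ∏ j ∈ J, ‖S j ψ‖ ^ 2 := by
      rw [norm_prod, ← Finset.prod_pow, ← Finset.prod_mul_prod_compl J]
      have h2 : ∏ j ∈ Jᶜ, ‖S j ψ‖ ^ 2 ≤ 1 := by
        refine Finset.prod_le_one (fun j _ => by positivity) fun j hj => ?_
        rw [Finset.mem_compl] at hj
        have h3 : ‖S j ψ‖ ≤ 1 := by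
          refine (norm_sum_le _ _).trans ?_
          simp only [AddChar.norm_apply, Finset.sum_const, nsmul_eq_mul, mul_one]
          exact_mod_cast hU j hj
        exact pow_le_one₀ (norm_nonneg _) h3
      calc _ ≤ (∏ j ∈ J, ‖S j ψ‖ ^ 2) * 1 :=
            mul_le_mul_of_nonneg_left h2 (Finset.prod_nonneg fun j _ => by positivity)
        _ = _ := mul_one _
    refine h1.trans ?_
    have h4 : ∏ j ∈ J, ‖S j ψ‖ ^ 2 = ∏ j ∈ J, ((‖S j ψ‖ ^ 2) ^ T j) ^ al j := by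
      refine Finset.prod_congr rfl fun j hj => ?_
      rw [← Real.rpow_mul (by positivity), hTal j hj, Real.rpow_one]
    rw [h4]
    refine (Real.geom_mean_le_arith_mean_weighted J al (fun j => (‖S j ψ‖ ^ 2) ^ T j) hal hals
      (fun j _ => Real.rpow_nonneg (by positivity) _)).trans ?_
    refine Finset.sum_le_sum fun j hj => mul_le_mul_of_nonneg_left ?_ (hal j hj)
    have h5 := en_pow (‖S j ψ‖ ^ 2) (P j) (T j) (by positivity) (hPpos j hj) (hT1 j hj)
    rwa [hPT j hj] at h5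
  -- average
  have hav : ∀ j ∈ J, ∑ ψ : AddChar (Additive G) ℂ, (Q * ((‖S j ψ‖ ^ 2) ^ ⌊T j⌋₊ / P j ^ ⌊T j⌋₊ +
        (‖S j ψ‖ ^ 2) ^ ⌈T j⌉₊ / P j ^ ⌈T j⌉₊)) ≤ Fintype.card G * (2 * B * Q) := by
    intro j hj
    have hT0 : 0 ≤ T j := by linarith [hT1 j hj]
    have hfl : 1 ≤ ⌊T j⌋₊ := by
      rw [Nat.one_le_floor_iff]
      exact hT1 j hj
    have hce : 1 ≤ ⌈T j⌉₊ := hfl.trans (Nat.floor_le_ceil _)
    have hlt : ∀ t : ℕ, 1 ≤ t → (t : ℝ) < T j + 1 → P j ^ (t - 1) < Q := by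
      intro t ht htT
      rw [← hPT j hj, ← Real.rpow_natCast]
      refine Real.rpow_lt_rpow_of_exponent_lt (hP j hj) ?_
      rw [Nat.cast_sub ht]
      push_cast
      linarith
    have m1 := hmom j hj ⌊T j⌋₊ hfl (hlt _ hfl (by linarith [Nat.floor_le hT0]))
    have m2 := hmom j hj ⌈T j⌉₊ hce (hlt _ hce (Nat.ceil_lt_add_one hT0))
    have p1 : 0 < P j ^ ⌊T j⌋₊ := pow_pos (hPpos j hj) _
    have p2 : 0 < P j ^ ⌈T j⌉₊ := pow_pos (hPpos j hj) _
    rw [← Finset.mul_sum, Finset.sum_add_distrib, ← Finset.sum_div, ← Finset.sum_div]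
    calc _ ≤ Q * (Fintype.card G * (B * P j ^ ⌊T j⌋₊) / P j ^ ⌊T j⌋₊ +
          Fintype.card G * (B * P j ^ ⌈T j⌉₊) / P j ^ ⌈T j⌉₊) := by gcongr
      _ = Fintype.card G * (2 * B * Q) := by field_simp; ring
  -- conclusion
  have hfin : (Fintype.card G : ℝ) * ((((Fintype.piFinset U ×ˢ Fintype.piFinset U).filter
      (fun w => ∏ j, f j (w.1 j) = ∏ j, f j (w.2 j))).card : ℕ) : ℝ) ≤
      Fintype.card G * (2 * B * Q) := by
    rw [hE]
    calc _ ≤ ∑ ψ : AddChar (Additive G) ℂ, ∑ j ∈ J, al j * (Q * ((‖S j ψ‖ ^ 2) ^ ⌊T j⌋₊ /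
          P j ^ ⌊T j⌋₊ + (‖S j ψ‖ ^ 2) ^ ⌈T j⌉₊ / P j ^ ⌈T j⌉₊)) :=
          Finset.sum_le_sum fun ψ _ => hpt ψ
      _ = ∑ j ∈ J, al j * ∑ ψ : AddChar (Additive G) ℂ, (Q * ((‖S j ψ‖ ^ 2) ^ ⌊T j⌋₊ /
          P j ^ ⌊T j⌋₊ + (‖S j ψ‖ ^ 2) ^ ⌈T j⌉₊ / P j ^ ⌈T j⌉₊)) := by
          rw [Finset.sum_comm]
          refine Finset.sum_congr rfl fun j _ => ?_
          rw [Finset.mul_sum]
      _ ≤ ∑ j ∈ J, al j * (Fintype.card G * (2 * B * Q)) :=
          Finset.sum_le_sum fun j hj => mul_le_mul_of_nonneg_left (hav j hj) (hal j hj)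
      _ = Fintype.card G * (2 * B * Q) := by rw [← Finset.sum_mul, hals, one_mul]
  exact le_of_mul_le_mul_left hfin hG

end Pool.FEW
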