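import Pool.Agent.H10.FEW.Stmts

set_option autoImplicit false

namespace Pool.FEW

open Finset

private theorem csb_half {α G : Type} [DecidableEq α] [DecidableEq G] (A : Finset α) (g : α → G)
    (Fr : Finset (G × G)) (pr : G × G → G) (D : ℕ) (hpr : ∀ x ∈ Fr, ∃ a ∈ A, g a = pr x)
    (hD : ∀ a ∈ A, (Fr.filter (fun x => pr x = g a)).card ≤ D) :
    ∑ x ∈ Fr, ((((A.filter (fun a => g a = pr x)).card : ℕ) : ℝ)) ^ 2 ≤
      D * ((((A ×ˢ A).filter (fun w => g w.1 = g w.2)).card : ℕ) : ℝ) := by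
  classical
  have hE : ((((A ×ˢ A).filter (fun w => g w.1 = g w.2)).card : ℕ) : ℝ) =
      ∑ u ∈ A.image g, ((((A.filter (fun a => g a = u)).card : ℕ) : ℝ)) ^ 2 := by
    have h1 : ((A ×ˢ A).filter (fun w => g w.1 = g w.2)).card =
        ∑ u ∈ A.image g, ((A.filter (fun a => g a = u)).card) ^ 2 := by
      rw [Finset.card_eq_sum_card_fiberwise (f := fun w : α × α => g w.1) (t := A.image g)]
      · refine Finset.sum_congr rfl fun u _ => ?_
        rw [sq, ← Finset.card_product]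
        congr 1
        ext ⟨a, b⟩
        simp only [mem_filter, mem_product]
        constructor
        · rintro ⟨⟨⟨ha, hb⟩, hab⟩, hu⟩
          exact ⟨⟨ha, hu⟩, hb, hab ▸ hu⟩
        · rintro ⟨⟨ha, hu⟩, hb, hu'⟩
          exact ⟨⟨⟨ha, hb⟩, hu.trans hu'.symm⟩, hu⟩
      · intro w hw
        have hw' := (mem_filter.1 hw).1
        rw [mem_product] at hw'
        exact Finset.mem_coe.2 (mem_image_of_mem g hw'.1)
    rw [h1]
    push_cast
    rfl
  rw [hE, Finset.mul_sum]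
  have hmaps : ∀ x ∈ Fr, pr x ∈ A.image g := by
    intro x hx
    obtain ⟨a, ha, h⟩ := hpr x hx
    exact mem_image.2 ⟨a, ha, h⟩
  rw [← Finset.sum_fiberwise_of_maps_to hmaps]
  refine Finset.sum_le_sum fun u hu => ?_
  obtain ⟨a, ha, rfl⟩ := mem_image.1 hu
  calc ∑ x ∈ Fr.filter (fun x => pr x = g a), ((((A.filter (fun b => g b = pr x)).card : ℕ) : ℝ)) ^ 2
      = ∑ _x ∈ Fr.filter (fun x => pr x = g a),
          ((((A.filter (fun b => g b = g a)).card : ℕ) : ℝ)) ^ 2 := by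
        refine Finset.sum_congr rfl fun x hx => ?_
        rw [(mem_filter.1 hx).2]
    _ = ((Fr.filter (fun x => pr x = g a)).card : ℝ) *
          ((((A.filter (fun b => g b = g a)).card : ℕ) : ℝ)) ^ 2 := by
        rw [Finset.sum_const, nsmul_eq_mul]
    _ ≤ _ := by
        refine mul_le_mul_of_nonneg_right ?_ (by positivity)
        exact_mod_cast hD a ha

theorem csb_thm : S_CSB := by
  intro α G _ _ A1 A2 g1 g2 W D hW h1 h2
  classical
  set Fr := W.image (fun w => (g1 w.1, g2 w.2)) with hFr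
  have hc : (W.card : ℝ) ≤ ∑ x ∈ Fr, ((((A1.filter (fun a => g1 a = x.1)).card : ℕ) : ℝ)) *
      ((((A2.filter (fun a => g2 a = x.2)).card : ℕ) : ℝ)) := by
    have h3 : W.card = ∑ x ∈ Fr, (W.filter (fun w => (g1 w.1, g2 w.2) = x)).card :=
      Finset.card_eq_sum_card_image _ _
    rw [h3]
    push_cast
    refine Finset.sum_le_sum fun x _ => ?_
    have h4 : (W.filter (fun w => (g1 w.1, g2 w.2) = x)).card ≤
        (A1.filter (fun a => g1 a = x.1)).card * (A2.filter (fun a => g2 a = x.2)).card := by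
      rw [← Finset.card_product]
      refine Finset.card_le_card fun w hw => ?_
      rw [mem_filter] at hw
      rw [mem_product, mem_filter, mem_filter]
      have := hW w hw.1
      rw [← hw.2]
      exact ⟨⟨this.1, rfl⟩, this.2, rfl⟩
    exact_mod_cast h4
  refine hc.trans ((Real.sum_mul_le_sqrt_mul_sqrt _ _ _).trans ?_)
  have e1 : ∑ x ∈ Fr, ((((A1.filter (fun a => g1 a = x.1)).card : ℕ) : ℝ)) ^ 2 ≤
      D * ((((A1 ×ˢ A1).filter (fun w => g1 w.1 = g1 w.2)).card : ℕ) : ℝ) := by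
    refine csb_half A1 g1 Fr Prod.fst D (fun x hx => ?_) fun a ha => ?_
    · obtain ⟨w, hw, rfl⟩ := mem_image.1 hx
      exact ⟨w.1, (hW w hw).1, rfl⟩
    · refine le_trans ?_ (h1 a ha)
      refine Finset.card_le_card_of_injOn (fun x => x.2) (fun x hx => ?_) (fun x hx y hy hxy => ?_)
      · rw [mem_coe, mem_filter] at hx
        obtain ⟨hx1, hx2⟩ := hx
        obtain ⟨w, hw, rfl⟩ := mem_image.1 hx1
        rw [mem_coe, mem_image]
        exact ⟨w, mem_filter.2 ⟨hw, hx2⟩, rfl⟩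
      · rw [mem_coe, mem_filter] at hx hy
        exact Prod.ext (hx.2.trans hy.2.symm) hxy
  have e2 : ∑ x ∈ Fr, ((((A2.filter (fun a => g2 a = x.2)).card : ℕ) : ℝ)) ^ 2 ≤
      D * ((((A2 ×ˢ A2).filter (fun w => g2 w.1 = g2 w.2)).card : ℕ) : ℝ) := by
    refine csb_half A2 g2 Fr Prod.snd D (fun x hx => ?_) fun a ha => ?_
    · obtain ⟨w, hw, rfl⟩ := mem_image.1 hx
      exact ⟨w.2, (hW w hw).2, rfl⟩
    · refine le_trans ?_ (h2 a ha)
      refine Finset.card_le_card_of_injOn (fun x => x.1) (fun x hx => ?_) (fun x hx y hy hxy => ?_)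
      · rw [mem_coe, mem_filter] at hx
        obtain ⟨hx1, hx2⟩ := hx
        obtain ⟨w, hw, rfl⟩ := mem_image.1 hx1
        rw [mem_coe, mem_image]
        exact ⟨w, mem_filter.2 ⟨hw, hx2⟩, rfl⟩
      · rw [mem_coe, mem_filter] at hx hy
        exact Prod.ext hxy (hx.2.trans hy.2.symm)
  have hD : (0 : ℝ) ≤ D := Nat.cast_nonneg D
  calc _ ≤ Real.sqrt (D * ((((A1 ×ˢ A1).filter (fun w => g1 w.1 = g1 w.2)).card : ℕ) : ℝ)) *
        Real.sqrt (D * ((((A2 ×ˢ A2).filter (fun w => g2 w.1 = g2 w.2)).card : ℕ) : ℝ)) :=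
        mul_le_mul (Real.sqrt_le_sqrt e1) (Real.sqrt_le_sqrt e2) (Real.sqrt_nonneg _)
          (Real.sqrt_nonneg _)
    _ = _ := by
        rw [Real.sqrt_mul hD, Real.sqrt_mul hD, Real.sqrt_mul (Nat.cast_nonneg _)]
        have := Real.mul_self_sqrt hD
        linear_combination (Real.sqrt
          ((((A1 ×ˢ A1).filter (fun w => g1 w.1 = g1 w.2)).card : ℕ) : ℝ) * Real.sqrt
          ((((A2 ×ˢ A2).filter (fun w => g2 w.1 = g2 w.2)).card : ℕ) : ℝ)) * this

end Pool.FEW
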