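import Pool.Agent.H10.FEW.Stmts

set_option autoImplicit false

namespace Pool.FEW

open Finset Pool.Agent.H98.ABCR Pool.SHA

/-- the abc triples `(a, b, a + b)` with radical at most `X`, at most `k` prime factors and
logarithmic height at most `H` -/
def Tri (X H : ℝ) (k : ℕ) : Set (ℕ × ℕ) :=
  {t | 0 < t.1 ∧ 0 < t.2 ∧ Nat.Coprime t.1 t.2 ∧
    ((∏ p ∈ (t.1 * t.2 * (t.1 + t.2)).primeFactors, p : ℕ) : ℝ) ≤ X ∧
    (t.1 * t.2 * (t.1 + t.2)).primeFactors.card ≤ k ∧ Real.log ((t.1 + t.2 : ℕ) : ℝ) ≤ H}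

/-- the same with one of the three radicals at most `Y` -/
def TriY (X Y H : ℝ) (k : ℕ) : Set (ℕ × ℕ) :=
  {t | t ∈ Tri X H k ∧ (((∏ p ∈ t.1.primeFactors, p : ℕ) : ℝ) ≤ Y ∨
    ((∏ p ∈ t.2.primeFactors, p : ℕ) : ℝ) ≤ Y ∨ ((∏ p ∈ (t.1 + t.2).primeFactors, p : ℕ) : ℝ) ≤ Y)}

theorem tri_finite (X H : ℝ) (k : ℕ) : (Tri X H k).Finite := by
  refine Set.Finite.subset (((Finset.range (⌊Real.exp H⌋₊ + 1)) ×ˢ
    (Finset.range (⌊Real.exp H⌋₊ + 1))).finite_toSet) ?_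
  rintro t ⟨h1, h2, -, -, -, h5⟩
  have hpos : (0 : ℝ) < ((t.1 + t.2 : ℕ) : ℝ) := by exact_mod_cast (by omega : 0 < t.1 + t.2)
  have h6 : ((t.1 + t.2 : ℕ) : ℝ) ≤ Real.exp H := by
    rw [← Real.log_le_iff_le_exp hpos]; exact h5
  have h7 : t.1 + t.2 ≤ ⌊Real.exp H⌋₊ := Nat.le_floor h6
  rw [Finset.mem_coe, Finset.mem_product, Finset.mem_range, Finset.mem_range]
  constructor <;> omega

theorem triY_sub (X Y H : ℝ) (k : ℕ) : TriY X Y H k ⊆ Tri X H k := fun _ ht => ht.1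

private theorem rad_mul3 (v : ℕ × ℕ) (hv : IsTri v) :
    rad (nn v) = rad (coord v 0) * rad (coord v 1) * rad (coord v 2) := by
  obtain ⟨h1, h2, h3⟩ := hv
  have c1 : (v.1 * v.2).Coprime (v.1 + v.2) := by
    refine Nat.Coprime.mul_left ?_ ?_
    · rw [Nat.coprime_self_add_right]
      exact h3
    · rw [Nat.coprime_add_self_right]
      exact h3.symm
  show rad (v.1 * v.2 * (v.1 + v.2)) = rad v.1 * rad v.2 * rad (v.1 + v.2)
  unfold rad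
  rw [Nat.Coprime.primeFactors_mul c1, Finset.prod_union c1.disjoint_primeFactors,
    Nat.Coprime.primeFactors_mul h3, Finset.prod_union h3.disjoint_primeFactors]

/-- The final statement, from the main theorem and the lower bound. -/
theorem final (hM : S_MAIN) (hL : S_LOW) :
    (∀ ε : ℝ, 0 < ε → ∃ A C : ℝ, ∀ (X H : ℝ) (k : ℕ), 3 ≤ X → 1 ≤ H → (Tri X H k).Finite ∧
      ((Tri X H k).ncard : ℝ) ≤ C * X ^ (2 / 3 + ε) * Real.log (X * H) ^ (A * k) ∧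
      ∀ Y : ℝ, 1 ≤ Y →
        ((TriY X Y H k).ncard : ℝ) ≤
          C * X ^ (1 / 2 + ε) * Y ^ (1 / 2 : ℝ) * Real.log (X * H) ^ (A * k)) ∧
    ∃ c C X₀ : ℝ, 0 < c ∧ ∀ (X Y H : ℝ) (k : ℕ), X₀ ≤ X → 1 ≤ Y → Y ≤ X ^ (1 / 3 : ℝ) →
      Real.log X ≤ H → C * Real.log (Real.log X) ≤ k →
      c * (X * Y) ^ (1 / 2 : ℝ) ≤ ((TriY X Y H k).ncard : ℝ) := by
  classical
  constructor
  · intro ε hε
    obtain ⟨A, C, hA, hC, h⟩ := hM ε hε
    have key : ∀ (X H Y : ℝ) (k : ℕ), 3 ≤ X → 1 ≤ H → 1 ≤ Y → ((TriY X Y H k).ncard : ℝ) ≤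
        C * X ^ (1 / 2 + ε) * Y ^ (1 / 2 : ℝ) * Real.log (X * H) ^ (A * k) := by
      intro X H Y k hX hH hY
      have hfin := (tri_finite X H k).subset (triY_sub X Y H k)
      have hX0 : 0 < X := by linarith
      have hY0 : 0 < Y := by linarith
      have h1 := h X H Y k hfin.toFinset hX hH hY (fun v hv => by
        rw [Set.Finite.mem_toFinset] at hv
        obtain ⟨⟨h1, h2, h3, h4, h5, h6⟩, h7⟩ := hv
        refine ⟨⟨h1, h2, h3⟩, h4, ?_, h5, h6⟩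
        rcases h7 with h7 | h7 | h7
        · exact ⟨0, h7⟩
        · exact ⟨1, h7⟩
        · exact ⟨2, h7⟩)
      rw [← Set.ncard_eq_toFinset_card _ hfin] at h1
      refine h1.trans (le_of_eq ?_)
      rw [Real.sqrt_eq_rpow, Real.mul_rpow hX0.le hY0.le, Real.rpow_add hX0]
      ring
    refine ⟨A, C, fun X H k hX hH => ⟨tri_finite X H k, ?_, fun Y hY => key X H Y k hX hH hY⟩⟩
    have hX0 : 0 < X := by linarith
    have hX1 : 1 ≤ X := by linarith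
    have h2 := key X H (X ^ (1 / 3 : ℝ)) k hX hH (Real.one_le_rpow hX1 (by norm_num))
    have h3 : Tri X H k ⊆ TriY X (X ^ (1 / 3 : ℝ)) H k := by
      intro t ht
      refine ⟨ht, ?_⟩
      obtain ⟨p1, p2, p3, p4, -, -⟩ := ht
      by_contra hcon
      push Not at hcon
      obtain ⟨q1, q2, q3⟩ := hcon
      have q1' : X ^ (1 / 3 : ℝ) < (rad t.1 : ℝ) := q1
      have q2' : X ^ (1 / 3 : ℝ) < (rad t.2 : ℝ) := q2
      have q3' : X ^ (1 / 3 : ℝ) < (rad (t.1 + t.2) : ℝ) := q3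
      have e1 := rad_mul3 t ⟨p1, p2, p3⟩
      have e2 : ((rad (nn t) : ℕ) : ℝ) ≤ X := p4
      rw [e1] at e2
      have e3 : ((rad (coord t 0) * rad (coord t 1) * rad (coord t 2) : ℕ) : ℝ) =
          (rad t.1 : ℝ) * (rad t.2 : ℝ) * (rad (t.1 + t.2) : ℝ) := by
        push_cast
        rfl
      rw [e3] at e2
      have hpos : 0 < X ^ (1 / 3 : ℝ) := Real.rpow_pos_of_pos hX0 _
      have e4 : X = X ^ (1 / 3 : ℝ) * X ^ (1 / 3 : ℝ) * X ^ (1 / 3 : ℝ) := by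
        rw [← Real.rpow_add hX0, ← Real.rpow_add hX0]
        norm_num
      have e5 : X ^ (1 / 3 : ℝ) * X ^ (1 / 3 : ℝ) * X ^ (1 / 3 : ℝ) <
          (rad t.1 : ℝ) * (rad t.2 : ℝ) * (rad (t.1 + t.2) : ℝ) := by
        gcongr
      linarith
    have h4 : ((Tri X H k).ncard : ℝ) ≤ ((TriY X (X ^ (1 / 3 : ℝ)) H k).ncard : ℝ) := by
      exact_mod_cast Set.ncard_le_ncard h3 ((tri_finite X H k).subset (triY_sub _ _ _ _))
    refine h4.trans (h2.trans (le_of_eq ?_))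
    rw [← Real.rpow_mul hX0.le, mul_assoc C, ← Real.rpow_add hX0]
    congr 3
    ring
  · obtain ⟨c, C, X0, hc, hC, hX0, h⟩ := hL
    refine ⟨c, C, X0, hc, fun X Y H k hX hY hYX hH hk => ?_⟩
    obtain ⟨F, hF, hv⟩ := h X Y k hX hY hYX hk
    have h1 : (F : Set (ℕ × ℕ)) ⊆ TriY X Y H k := by
      intro v hvF
      obtain ⟨⟨p1, p2, p3⟩, p4, p5, p6, p7⟩ := hv v hvF
      exact ⟨⟨p1, p2, p3, p4, p6, p7.trans hH⟩, Or.inl p5⟩
    have h2 : ((F : Set (ℕ × ℕ)).ncard : ℝ) ≤ ((TriY X Y H k).ncard : ℝ) := by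
      exact_mod_cast Set.ncard_le_ncard h1 ((tri_finite X H k).subset (triY_sub _ _ _ _))
    rw [Set.ncard_coe_finset] at h2
    rw [← Real.sqrt_eq_rpow]
    exact hF.trans h2

end Pool.FEW
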