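import Pool.Agent.H10.FEW.Stmts

set_option autoImplicit false

namespace Pool.FEW

open Finset

theorem rlc_thm : S_RLC := by
  classical
  intro l s _ c0 c1 c2 a0 b1 hs hc0 hc1 hc2 ha0 hb1
  set Z := (univ : Finset (ZMod l)).filter (fun z => z ^ s = 1) with hZ
  have hZc : Z.card ≤ s := by
    have h1 : Z.val ≤ Polynomial.nthRoots s (1 : ZMod l) := by
      rw [Multiset.le_iff_subset Z.nodup]
      intro z hz
      rw [Polynomial.mem_nthRoots hs]
      exact (mem_filter.1 hz).2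
    exact (Multiset.card_le_card h1).trans (Polynomial.card_nthRoots s 1)
  by_cases hex : ∃ a : ZMod l, a ^ s = b1
  swap
  · refine le_trans (le_of_eq ?_) (Nat.zero_le s)
    rw [card_eq_zero, filter_eq_empty_iff]
    rintro b2 - ⟨z0, z1, z2, a1, a2, -, -, -, h4, -, -⟩
    exact hex ⟨a1, h4⟩
  obtain ⟨a, ha⟩ := hex
  have ha0' : a ≠ 0 := by
    rintro rfl
    rw [zero_pow hs.ne'] at ha
    exact hb1 ha.symm
  refine le_trans (card_le_card (t := Z.image
    (fun z => (-(c0 * a0 + c1 * (a * z)) / c2) ^ s)) ?_) (card_image_le.trans hZc)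
  intro b2 hb2
  obtain ⟨z0, z1, z2, a1, a2, h0, h1, h2, h3, h4, h5⟩ := (mem_filter.1 hb2).2
  have hz0 : z0 ≠ 0 := by
    rintro rfl
    rw [zero_pow hs.ne'] at h0
    exact zero_ne_one h0
  rw [mem_image]
  refine ⟨z1 / z0 * (a1 / a), ?_, ?_⟩
  · rw [hZ, mem_filter]
    refine ⟨mem_univ _, ?_⟩
    rw [mul_pow, div_pow, div_pow, h1, h0, h3, ha, div_self hb1]
    simp
  · have e1 : -(c0 * a0 + c1 * (a * (z1 / z0 * (a1 / a)))) / c2 = z2 * a2 / z0 := by
      field_simp
      linear_combination (-1 : ZMod l) * h5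
    rw [e1, div_pow, mul_pow, h2, h0, h4]
    simp

end Pool.FEW
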