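import Pool.Agent.H98.ABCR.All
import Pool.Agent.H10.FEW.FINAL
import Pool.Agent.H10.FEW.EN
import Pool.Agent.H10.FEW.CSB
import Pool.Agent.H10.FEW.RLC
import Pool.Agent.H12.FEW.GLC
import Pool.Agent.H18.FEW.ONE
import Pool.Agent.H19.FEW.SMP
import Pool.Agent.H23.FEW.BLK
import Pool.Agent.H23.FEW.CHO
import Pool.Agent.H37.FEW.NUM
import Pool.Agent.H37.FEW.REP
import Pool.Agent.H42.FEW.MOM
import Pool.Agent.H42.FEW.FAM
import Pool.Agent.H50.FEW.MOD
import Pool.Agent.H59.FEW.MAIN
import Pool.Agent.H59.FEW.LOW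
import Pool.Agent.H63.FEW.BTQ
import Pool.Agent.H89.FEW.FCD

set_option autoImplicit false

namespace Pool.FEW

open Pool.Agent.H98.ABCR

/-- many pairwise coprime moduli -/
theorem all_MOD : S_MOD := mod_thm (smp_thm btq_thm) glc_thm

/-- few pairs `(e, M)` serve all triples -/
theorem all_FAM : S_FAM := fam_thm all_MOD cho_thm blk_thm

/-- tuples of primes with a fixed code -/
theorem all_FCD : S_FCD := fcd_thm en_thm mom_thm rlc_thm csb_thm

/-- one pair `(e, M)` -/
theorem all_ONE : S_ONE := one_thm all_FCD rep_thm num_thm all_TOT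

/-- the main theorem -/
theorem all_MAIN : S_MAIN := main_thm all_FAM all_ONE all_TOT

/-- the lower bound -/
theorem all_LOW : S_LOW := low_thm rad_thm

end Pool.FEW
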