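import Pool.Agent.H45.SHA.Stmts

/-!
# FEW: abc triples with few prime factors, all heights: the sharp two-parameter count

Definitions and the statements of the modules.  Proofs in words: `/team-store/FEW_PLAN_helper10.md`.
Module `XXX` is a theorem `xxx_thm (h1 : S_AAA) ... : S_XXX` in `Pool/Agent/H<k>/FEW/XXX.lean`
(import this file, namespace `Pool.FEW`).
-/

set_option autoImplicit false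

namespace Pool.FEW

open Finset Pool.Agent.H98.ABCR Pool.SHA

/-! ## Part A: moduli -/

/-- the part of `n` with primes below `k0` -/
def smp (k0 n : ℕ) : ℕ := ∏ p ∈ n.primeFactors.filter (fun p => p < k0), p ^ n.factorization p

/-- Brun-Titchmarsh for the residue class `1` -/
def S_BTQ : Prop := ∃ C : ℝ, 0 < C ∧ ∀ (x : ℝ) (q : ℕ), 2 ≤ x → 1 ≤ q → (q : ℝ) ^ 2 ≤ x →
  (((Icc 2 ⌊x⌋₊).filter (fun l : ℕ => l.Prime ∧ q ∣ l - 1)).card : ℝ) ≤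
    C * x / (q.totient * Real.log x)

/-- the smooth part of `l - 1`, on average over the primes `l` -/
def S_SMP : Prop := ∃ C x0 : ℝ, 0 < C ∧ ∀ (x : ℝ) (k0 : ℕ), x0 ≤ x → 3 ≤ k0 →
  (k0 : ℝ) ≤ x ^ (1 / 20 : ℝ) →
  ∑ l ∈ (Icc 2 ⌊x⌋₊).filter Nat.Prime, Real.log (smp k0 (l - 1)) ≤
    C * x / Real.log x * Real.log k0

/-- primes `l` such that `l - 1` has a prime factor in `(x ^ a, x ^ b]` -/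
def S_GLC : Prop := ∀ a b : ℝ, 0 < a → a < b → b ≤ 1 / 5 → ∃ c x0 : ℝ, 0 < c ∧ ∀ x : ℝ, x0 ≤ x →
  ∃ L : Finset ℕ, c * x / Real.log x ≤ (L.card : ℝ) ∧
    ∀ l ∈ L, l.Prime ∧ x ≤ 9 * (l : ℝ) ∧ (l : ℝ) ≤ 8 * x ∧
      ∃ s : ℕ, s.Prime ∧ x ^ a < s ∧ (s : ℝ) ≤ x ^ b ∧ s ∣ l - 1

/-- many pairwise coprime moduli `e`, each with many primes `l` of size `e ^ (1 + o(1))` in the
residue class `1` modulo `e` -/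
def S_MOD : Prop := ∀ σ : ℝ, 0 < σ → ∃ τ y0 : ℝ, 0 < τ ∧ ∀ y : ℝ, y0 ≤ y → ∃ E : Finset ℕ,
  y ^ τ ≤ (E.card : ℝ) ∧ (∀ e ∈ E, ∀ e' ∈ E, e ≠ e' → e.Coprime e') ∧
  ∀ e ∈ E, y ^ (1 - σ) ≤ (e : ℝ) ∧ ∃ L : Finset ℕ, y ^ τ ≤ (L.card : ℝ) ∧
    ∀ l ∈ L, l.Prime ∧ e ∣ l - 1 ∧ y ≤ 9 * (l : ℝ) ∧ (l : ℝ) ≤ 8 * y

/-! ## Part B: choice of the modulus and of the block of primes -/

/-- among pairwise coprime moduli one has small common factors with all given numbers -/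
def S_CHO : Prop := ∀ (E P : Finset ℕ) (x : ℕ → ℕ) (B g : ℝ),
  (∀ e ∈ E, ∀ e' ∈ E, e ≠ e' → e.Coprime e') → 1 < g →
  (∀ p ∈ P, 1 ≤ x p ∧ (x p : ℝ) ≤ B) → (P.card : ℝ) * Real.log B < E.card * Real.log g →
  ∃ e ∈ E, ∀ p ∈ P, (Nat.gcd (x p) e : ℝ) < g

/-- blocks -/
def S_BLK : Prop := ∀ (L : Finset ℕ) (m B : ℕ), m * B ≤ L.card →
  ∃ Bs : Finset (Finset ℕ), Bs.card ≤ B ∧ (∀ M ∈ Bs, M ⊆ L ∧ M.card = m) ∧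
    ∀ Z : Finset ℕ, Z.card < B → ∃ M ∈ Bs, Disjoint M Z

/-- a modulus `e` with a block `M` of primes `l` -/
structure GM (X y σ : ℝ) (e : ℕ) (M : Finset ℕ) : Prop where
  e0 : 0 < e
  el : y ^ (1 - σ) ≤ (e : ℝ)
  pr : ∀ l ∈ M, l.Prime ∧ e ∣ l - 1 ∧ y ≤ 9 * (l : ℝ) ∧ (l : ℝ) ≤ 8 * y
  lo : X ^ 3 ≤ ∏ l ∈ M, (l : ℝ)
  cd : (M.card : ℝ) * Real.log y ≤ 4 * Real.log X + 2 * Real.log y
  e8 : (e : ℝ) ≤ 8 * y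

/-- `(e, M)` is good for the triple `v` -/
def Gd (y σ : ℝ) (e : ℕ) (M : Finset ℕ) (v : ℕ × ℕ) : Prop :=
  (∀ p ∈ (nn v).primeFactors, (Nat.gcd ((nn v).factorization p) e : ℝ) < y ^ σ) ∧
    ∀ l ∈ M, ¬ l ∣ nn v

/-- few pairs `(e, M)` serve all triples -/
def S_FAM : Prop := ∀ σ : ℝ, 0 < σ → σ < 1 → ∃ A X0 : ℝ, 1 ≤ A ∧ 3 ≤ X0 ∧
  ∀ X H : ℝ, X0 ≤ X → 1 ≤ H → ∃ (y : ℝ) (Ms : Finset (ℕ × Finset ℕ)),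
    64 ≤ y ^ σ ∧ Real.log X ≤ y ∧ y ≤ Real.log (X * H) ^ A ∧
    (Ms.card : ℝ) ≤ Real.log (X * H) ^ A ∧ (∀ m ∈ Ms, GM X y σ m.1 m.2) ∧
    ∀ v : ℕ × ℕ, IsTri v → (RR v : ℝ) ≤ X → hh v ≤ H → ∃ m ∈ Ms, Gd y σ m.1 m.2 v

/-! ## Part C: energies -/

/-- the energy of a product by the moments of its factors -/
def S_EN : Prop := ∀ (ι G : Type) [Fintype ι] [DecidableEq ι] [CommGroup G] [Fintype G]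
  [DecidableEq G] (U : ι → Finset ℕ) (f : ι → ℕ → G) (J : Finset ι) (P : ι → ℝ) (B : ℝ), 1 ≤ B →
  (∀ j, j ∉ J → (U j).card ≤ 1) → (∀ j ∈ J, 1 < P j) →
  (∀ j ∈ J, ∀ t : ℕ, 1 ≤ t → P j ^ (t - 1) < ∏ i ∈ J, P i →
    ((((Fintype.piFinset fun _ : Fin t => U j) ×ˢ (Fintype.piFinset fun _ : Fin t => U j)).filter
      (fun w => ∏ i, f j (w.1 i) = ∏ i, f j (w.2 i))).card : ℝ) ≤ B * P j ^ t) →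
  (((Fintype.piFinset U ×ˢ Fintype.piFinset U).filter
    (fun w => ∏ j, f j (w.1 j) = ∏ j, f j (w.2 j))).card : ℝ) ≤ 2 * B * ∏ j ∈ J, P j

/-- moments of one factor -/
def S_MOM : Prop := ∀ (e r P t : ℕ) (M U : Finset ℕ), 0 < e → (∀ l ∈ M, l.Prime ∧ e ∣ l - 1) →
  (∀ q ∈ U, q.Prime ∧ q < 2 * P) → (∀ q ∈ U, ∀ l ∈ M, ¬ l ∣ q) → (2 * P) ^ t ≤ ∏ l ∈ M, l →
  ((((Fintype.piFinset fun _ : Fin t => U) ×ˢ (Fintype.piFinset fun _ : Fin t => U)).filter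
    (fun w => ∀ l ∈ M, (∏ i, w.1 i) ^ (r * ((l - 1) / e)) ≡
      (∏ i, w.2 i) ^ (r * ((l - 1) / e)) [MOD l])).card : ℝ) ≤
    2 * (∏ l ∈ M, ((((l - 1) / e : ℕ) : ℝ) * (Nat.gcd r e : ℝ))) * (U.card : ℝ) ^ t * t.factorial

open Classical in
/-- degree of the relation in `F_l` -/
def S_RLC : Prop := ∀ (l s : ℕ) [Fact l.Prime] (c0 c1 c2 a0 b1 : ZMod l), 0 < s →
  c0 ≠ 0 → c1 ≠ 0 → c2 ≠ 0 → a0 ≠ 0 → b1 ≠ 0 →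
  ((univ : Finset (ZMod l)).filter (fun b2 => ∃ z0 z1 z2 a1 a2 : ZMod l, z0 ^ s = 1 ∧ z1 ^ s = 1 ∧
    z2 ^ s = 1 ∧ a1 ^ s = b1 ∧ a2 ^ s = b2 ∧
    c0 * z0 * a0 + c1 * z1 * a1 + c2 * z2 * a2 = 0)).card ≤ s

/-- the Cauchy-Schwarz step -/
def S_CSB : Prop := ∀ (α G : Type) [DecidableEq α] [DecidableEq G] (A1 A2 : Finset α)
  (g1 g2 : α → G) (W : Finset (α × α)) (D : ℕ), (∀ w ∈ W, w.1 ∈ A1 ∧ w.2 ∈ A2) →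
  (∀ a ∈ A1, ((W.filter (fun w => g1 w.1 = g1 a)).image (fun w => g2 w.2)).card ≤ D) →
  (∀ a ∈ A2, ((W.filter (fun w => g2 w.2 = g2 a)).image (fun w => g1 w.1)).card ≤ D) →
  (W.card : ℝ) ≤ D * Real.sqrt
    ((((A1 ×ˢ A1).filter (fun w => g1 w.1 = g1 w.2)).card : ℝ) *
      (((A2 ×ˢ A2).filter (fun w => g2 w.1 = g2 w.2)).card : ℝ))

/-- number of tuples of primes with a fixed code -/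
def S_FCD : Prop := ∀ (k e : ℕ) (M : Finset ℕ) (tt : Fin k → Fin 3) (r P : Fin k → ℕ)
  (U : Fin k → Finset ℕ) (J : Finset (Fin k)) (T : Finset (Fin k → ℕ)) (i0 : Fin 3)
  (g Φ X : ℝ), 0 < e → (∀ l ∈ M, l.Prime ∧ e ∣ l - 1) → 1 ≤ g → 1 ≤ Φ →
  (∀ j, j ∉ J → (U j).card ≤ 1) →
  (∀ j ∈ J, 2 ≤ P j ∧ ∀ q ∈ U j, q.Prime ∧ P j ≤ q ∧ q < 2 * P j) →
  (∀ j, ∀ q ∈ U j, ∀ l ∈ M, ¬ l ∣ q) → (∀ j ∈ J, (Nat.gcd (r j) e : ℝ) ≤ g) →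
  ∏ j ∈ J, (P j : ℝ) ≤ X →
  (∀ j ∈ J, ∀ t : ℕ, 1 ≤ t → (P j : ℝ) ^ (t - 1) < X →
    (2 * (P j : ℝ)) ^ t ≤ ∏ l ∈ M, (l : ℝ) ∧ (t.factorial : ℝ) ≤ Φ) →
  (∀ p ∈ T, (∀ j, p j ∈ U j) ∧ ∃ x : Fin k → ℕ, (∀ j, x j % e = r j % e) ∧
    ∏ j ∈ univ.filter (fun j => tt j = 0), p j ^ x j +
      ∏ j ∈ univ.filter (fun j => tt j = 1), p j ^ x j =
      ∏ j ∈ univ.filter (fun j => tt j = 2), p j ^ x j) →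
  (T.card : ℝ) ≤ 4 * Φ * (∏ l ∈ M, (((l - 1) / e : ℕ) : ℝ)) ^ 2 * g ^ M.card *
    Real.sqrt (X * ∏ j ∈ J.filter (fun j => tt j = i0), (P j : ℝ))

/-! ## Part D: assembly -/

/-- the primes of a triple as a vector -/
def S_REP : Prop := ∀ (k : ℕ) (v : ℕ × ℕ), IsTri v → om (nn v) ≤ k →
  ∃ (p x : Fin k → ℕ) (tt : Fin k → Fin 3),
    (∀ i, coord v i = ∏ j ∈ univ.filter (fun j => tt j = i), p j ^ x j) ∧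
    (∀ i, rad (coord v i) = ∏ j ∈ univ.filter (fun j => tt j = i), p j) ∧ RR v = ∏ j, p j ∧
    ∀ j, p j ≠ 1 → p j ∈ (nn v).primeFactors ∧ x j = (nn v).factorization (p j)

/-- numerical estimates for primes which are at least `(log X) ^ C1` -/
def S_NUM : Prop := ∀ ε : ℝ, 0 < ε → ∃ C1 X0 : ℝ, 1 ≤ C1 ∧ 3 ≤ X0 ∧ ∀ (X : ℝ) (P t : ℕ), X0 ≤ X →
  1 ≤ t → Real.log X ^ C1 ≤ 2 * (P : ℝ) → (P : ℝ) ≤ X → (P : ℝ) ^ (t - 1) < X →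
  (2 * (P : ℝ)) ^ t ≤ X ^ 3 ∧ (t.factorial : ℝ) ≤ X ^ ε

/-- triples with a common good pair `(e, M)` -/
def S_ONE : Prop := ∀ ε : ℝ, 0 < ε → ∃ σ : ℝ, 0 < σ ∧ σ < 1 ∧ ∀ A1 : ℝ, 1 ≤ A1 →
  ∃ A X0 : ℝ, 1 ≤ A ∧ 3 ≤ X0 ∧ ∀ (X H Y y : ℝ) (k e : ℕ) (M : Finset ℕ) (F : Finset (ℕ × ℕ)),
    X0 ≤ X → 1 ≤ H → 1 ≤ Y → 1 ≤ k → 64 ≤ y ^ σ → Real.log X ≤ y →
    y ≤ Real.log (X * H) ^ A1 → GM X y σ e M →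
    (∀ v ∈ F, IsTri v ∧ (RR v : ℝ) ≤ X ∧ (∃ i, (rad (coord v i) : ℝ) ≤ Y) ∧ om (nn v) ≤ k ∧
      Gd y σ e M v) →
    (F.card : ℝ) ≤ X ^ ε * Real.sqrt (X * Y) * Real.log (X * H) ^ (A * k)

/-- MAIN THEOREM, upper bound -/
def S_MAIN : Prop := ∀ ε : ℝ, 0 < ε → ∃ A C : ℝ, 1 ≤ A ∧ 1 ≤ C ∧
  ∀ (X H Y : ℝ) (k : ℕ) (F : Finset (ℕ × ℕ)), 3 ≤ X → 1 ≤ H → 1 ≤ Y →
    (∀ v ∈ F, IsTri v ∧ (RR v : ℝ) ≤ X ∧ (∃ i, (rad (coord v i) : ℝ) ≤ Y) ∧ om (nn v) ≤ k ∧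
      hh v ≤ H) →
    (F.card : ℝ) ≤ C * X ^ ε * Real.sqrt (X * Y) * Real.log (X * H) ^ (A * k)

/-- lower bound -/
def S_LOW : Prop := ∃ c C X0 : ℝ, 0 < c ∧ 1 ≤ C ∧ 3 ≤ X0 ∧ ∀ (X Y : ℝ) (k : ℕ), X0 ≤ X → 1 ≤ Y →
  Y ≤ X ^ (1 / 3 : ℝ) → C * Real.log (Real.log X) ≤ k →
  ∃ F : Finset (ℕ × ℕ), c * Real.sqrt (X * Y) ≤ (F.card : ℝ) ∧
    ∀ v ∈ F, IsTri v ∧ (RR v : ℝ) ≤ X ∧ (rad v.1 : ℝ) ≤ Y ∧ om (nn v) ≤ k ∧ hh v ≤ Real.log X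

end Pool.FEW
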